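import Pool.Agent.Helper41.GP.Hull
import Pool.Agent.Helper22.SC.K14
import Pool.Agent.Helper22.SC.Conv

/-!
# Module BM: the base model
-/

universe u

namespace Pool.Agent.Helper41.GP

open ZFSet Pool.Agent.Helper66.SC Pool.Agent.Helper22.SC Pool.Agent.Helper66.GP

variable {S0 : Set ZFSet.{u}}

/-! ### Transfer -/

theorem sat_MM {k : ℕ} (φ : Fml k) (v : Fin k → ZFSet.{u}) (hv : ∀ i, v i ∈ HH S0) :
    Sat (MM S0) ∅ φ (fun i => col S0 (v i)) ↔ Sat Set.univ ∅ φ v :=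
  (sat_col φ v hv).trans (elem_HH φ v hv)

theorem urel_MM {R : Set ZFSet.{u} → Set ZFSet.{u} → ZFSet.{u} → Prop} (hR : URel KZ.{u} R)
    {x : ZFSet.{u}} (hx : x ∈ HH S0) : R (MM S0) ∅ (col S0 x) ↔ R Set.univ ∅ x := by
  obtain ⟨φ, hφ⟩ := hR
  have h1 := hφ Set.univ ∅ isZF_univ x (fun _ => trivial)
  have h2 := hφ (MM S0) ∅ (isZF_MM S0) (col S0 x) (fun _ => ⟨x, hx, rfl⟩)
  rw [h1, h2]
  exact sat_MM φ _ (fun _ => hx)

theorem urel_MM_unit {R : Set ZFSet.{u} → Set ZFSet.{u} → PUnit.{u + 2} → Prop}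
    (hR : URel KZ.{u} R) : R (MM S0) ∅ ⟨⟩ ↔ R Set.univ ∅ ⟨⟩ := by
  obtain ⟨φ, hφ⟩ := hR
  have h1 := hφ Set.univ ∅ isZF_univ ⟨⟩ (fun _ => trivial)
  have h2 := hφ (MM S0) ∅ (isZF_MM S0) ⟨⟩ (fun i => i.elim0)
  rw [h1, h2]
  have h3 := sat_MM (S0 := S0) φ (Ctx.vec (PUnit.unit : PUnit.{u + 2})) (fun i => i.elim0)
  refine Iff.trans ?_ h3
  have : (fun i => col S0 (Ctx.vec (PUnit.unit : PUnit.{u + 2}) i)) =
      Ctx.vec (PUnit.unit : PUnit.{u + 2}) := by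
    funext i
    exact i.elim0
  rw [this]

/-! ### Cardinalities in the universe -/

theorem cardLe_univ {x y : ZFSet.{u}} (h : x.card ≤ y.card) : CardLe (Set.univ) x y := by
  have h1 : Cardinal.mk x ≤ Cardinal.mk y := by
    rw [ZFSet.cardinalMk_coe_sort, ZFSet.cardinalMk_coe_sort]
    exact Cardinal.lift_le.2 h
  obtain ⟨e⟩ := h1
  refine ⟨ZFSet.range (fun s : {z // z ∈ x} => pair s.1 (e s).1), trivial, ?_, ?_⟩
  · refine ⟨?_, ?_⟩
    · intro t ht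
      obtain ⟨s, rfl⟩ := ZFSet.mem_range.1 ht
      exact ZFSet.pair_mem_prod.2 ⟨s.2, (e s).2⟩
    · intro z hz
      refine ⟨(e ⟨z, hz⟩).1, ZFSet.mem_range.2 ⟨⟨z, hz⟩, rfl⟩, ?_⟩
      intro w hw
      obtain ⟨s, hs⟩ := ZFSet.mem_range.1 hw
      obtain ⟨h1, h2⟩ := ZFSet.pair_inj.1 hs
      have : s = ⟨z, hz⟩ := Subtype.ext h1
      rw [← h2, this]
  · intro a ha b hb z h1 h2
    obtain ⟨s, hs⟩ := ZFSet.mem_range.1 h1
    obtain ⟨t, ht⟩ := ZFSet.mem_range.1 h2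
    obtain ⟨s1, s2⟩ := ZFSet.pair_inj.1 hs
    obtain ⟨t1, t2⟩ := ZFSet.pair_inj.1 ht
    have : e s = e t := Subtype.ext (s2.trans t2.symm)
    have := e.injective this
    rw [← s1, ← t1, this]

/-- well-orderability, with sets -/
def WOS (N : Set ZFSet.{u}) : Prop := ∀ x ∈ N, ∃ o ∈ N, o.IsOrdinal ∧ CardLe N x o

theorem urel_WOS : URel KZ.{u} (fun N _ (_ : PUnit.{u + 2}) => WOS N) := by
  unfold WOS
  apply_rules (transparency := .reducible) (maxDepth := 400) using is_poly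

theorem WOS_univ : WOS (Set.univ : Set ZFSet.{u}) := by
  intro x _
  refine ⟨oz x.card.ord, trivial, isOrdinal_toZFSet _, cardLe_univ ?_⟩
  rw [Ordinal.card_toZFSet, Cardinal.card_ord]

theorem WO_of_WOS {N : Set ZFSet.{u}} (h : WOS N) : WO N := by
  intro x hx
  obtain ⟨o, ho, ho', hc⟩ := h x hx
  have h2 : oz o.rank = o := ho'.toZFSet_rank_eq
  exact ⟨o.rank, by rw [h2]; exact ho, by rw [h2]; exact hc⟩

/-- inaccessibility, with sets -/
def InacS (N : Set ZFSet.{u}) (k : ZFSet.{u}) : Prop :=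
  k.IsOrdinal ∧ ZFSet.omega ∈ k ∧ (∀ a ∈ k, ∃ c ∈ k, CardLe N (Helper66.SC.Pow N a) c) ∧
  ∀ a ∈ k, ∀ f ∈ N, (∀ x ∈ N, ∀ y ∈ N, ∀ z ∈ N, pair x y ∈ f → pair x z ∈ f → y = z) →
    ∃ b ∈ k, ∀ x ∈ a, ∀ y ∈ k, pair x y ∈ f → y ∈ b

theorem urel_InacS : URel KZ.{u} (fun N _ (k : ZFSet.{u}) => InacS N k) := by
  unfold InacS
  apply_rules (transparency := .reducible) (maxDepth := 400) using is_poly

theorem pair_mem_trans {N A : Set ZFSet.{u}} (hN : IsZF N A) {x y f : ZFSet.{u}} (hf : f ∈ N)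
    (h : pair x y ∈ f) : x ∈ N ∧ y ∈ N := by
  have h1 := hN.trans f hf _ h
  have h2 : ({x, y} : ZFSet.{u}) ∈ pair x y := by
    unfold pair
    exact ZFSet.mem_pair.2 (Or.inr rfl)
  have h3 := hN.trans _ h1 _ h2
  exact ⟨hN.trans _ h3 _ (ZFSet.mem_pair.2 (Or.inl rfl)),
    hN.trans _ h3 _ (ZFSet.mem_pair.2 (Or.inr rfl))⟩

theorem inac_of_inacS {N : Set ZFSet.{u}} {κ : Ordinal.{u}}
    (hk : oz κ ∈ N) (h : InacS N (oz κ)) : Inac N κ := by
  obtain ⟨_, h1, h2, h3⟩ := h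
  refine ⟨hk, ?_, ?_, ?_⟩
  · rw [omega_eq] at h1
    exact Ordinal.toZFSet_mem_toZFSet_iff.1 h1
  · intro a ha
    obtain ⟨c, hc, hc'⟩ := h2 (oz a) (Ordinal.toZFSet_mem_toZFSet_iff.2 ha)
    obtain ⟨c', hc1, rfl⟩ := Ordinal.mem_toZFSet_iff.1 hc
    exact ⟨c', hc1, hc'⟩
  · intro a ha f hf hfun
    obtain ⟨b, hb, hb'⟩ := h3 (oz a) (Ordinal.toZFSet_mem_toZFSet_iff.2 ha) f hf
      (fun x _ y _ z _ h1 h2 => hfun x y z h1 h2)
    obtain ⟨b', hb1, rfl⟩ := Ordinal.mem_toZFSet_iff.1 hb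
    refine ⟨b', hb1, fun x y hx hy hp => ?_⟩
    exact Ordinal.toZFSet_mem_toZFSet_iff.1 (hb' (oz x) (Ordinal.toZFSet_mem_toZFSet_iff.2 hx) (oz y)
      (Ordinal.toZFSet_mem_toZFSet_iff.2 hy) hp)

theorem inacS_univ : InacS (Set.univ : Set ZFSet.{1}) (oz Ordinal.univ.{0, 1}) := by
  have hreg : Cardinal.IsInaccessible Cardinal.univ.{0, 1} := Cardinal.IsInaccessible.univ
  have hlt : ∀ o : Ordinal.{1}, o < Ordinal.univ.{0, 1} ↔ o.card < Cardinal.univ.{0, 1} := by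
    intro o
    rw [← Cardinal.ord_univ, Cardinal.lt_ord]
  refine ⟨isOrdinal_toZFSet _, ?_, ?_, ?_⟩
  · rw [omega_eq, Ordinal.toZFSet_mem_toZFSet_iff, hlt, Ordinal.card_omega0]
    exact Cardinal.aleph0_lt_univ
  · intro a ha
    obtain ⟨a', ha', rfl⟩ := Ordinal.mem_toZFSet_iff.1 ha
    have h1 : (2 : Cardinal.{1}) ^ a'.card < Cardinal.univ.{0, 1} :=
      Cardinal.IsStrongLimit.univ.isStrongPrelimit ((hlt a').1 ha')
    refine ⟨oz (2 ^ a'.card : Cardinal.{1}).ord, ?_, ?_⟩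
    · rw [Ordinal.toZFSet_mem_toZFSet_iff, hlt, Cardinal.card_ord]
      exact h1
    · apply cardLe_univ
      rw [Ordinal.card_toZFSet, Cardinal.card_ord]
      calc (Helper66.SC.Pow Set.univ (oz a')).card ≤ (oz a').powerset.card := by
            apply ZFSet.card_mono
            intro z hz
            exact ZFSet.mem_powerset.2 (mem_Pow.1 hz).2
        _ = 2 ^ a'.card := by rw [ZFSet.card_powerset, Ordinal.card_toZFSet]
  · intro a ha f _ hfun
    obtain ⟨a', ha', rfl⟩ := Ordinal.mem_toZFSet_iff.1 ha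
    classical
    let G : Ordinal.{1} → Ordinal.{1} := fun x =>
      if h : ∃ y, y < Ordinal.univ.{0, 1} ∧ pair (oz x) (oz y) ∈ f then h.choose + 1 else 0
    have hG : ∀ x, G x < Ordinal.univ.{0, 1} := by
      intro x
      simp only [G]
      split_ifs with h
      · have hl : Order.IsSuccLimit Ordinal.univ.{0, 1} := by
          rw [← Cardinal.ord_univ]
          exact Cardinal.isSuccLimit_ord (Cardinal.aleph0_lt_univ).le
        exact hl.add_one_lt h.choose_spec.1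
      · rw [hlt, Ordinal.card_zero]
        exact Cardinal.univ_pos
    let g : a'.ToType → Ordinal.{1} := fun i => G (Ordinal.ToType.mk.symm i).1
    have hsup : iSup g < Ordinal.univ.{0, 1} := by
      apply Ordinal.iSup_lt_of_lt_cof _ (fun i => hG _)
      rw [← Cardinal.ord_univ, hreg.isRegular.cof_ord, Cardinal.mk_toType]
      exact (hlt a').1 ha'
    refine ⟨oz (iSup g), Ordinal.toZFSet_mem_toZFSet_iff.2 hsup, ?_⟩
    intro x hx y hy hp
    obtain ⟨x', hx', rfl⟩ := Ordinal.mem_toZFSet_iff.1 hx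
    obtain ⟨y', hy', rfl⟩ := Ordinal.mem_toZFSet_iff.1 hy
    rw [Ordinal.toZFSet_mem_toZFSet_iff]
    have hex : ∃ y, y < Ordinal.univ.{0, 1} ∧ pair (oz x') (oz y) ∈ f := ⟨y', hy', hp⟩
    have hGx : G x' = hex.choose + 1 := by
      simp only [G]
      rw [dif_pos hex]
    have hyy : hex.choose = y' :=
      Ordinal.toZFSet_injective (hfun _ trivial _ trivial _ trivial hex.choose_spec.2 hp)
    have hle : g (Ordinal.ToType.mk ⟨x', hx'⟩) ≤ iSup g := Ordinal.le_iSup g _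
    have hgG : g (Ordinal.ToType.mk ⟨x', hx'⟩) = G x' := by
      simp only [g]
      rw [OrderIso.symm_apply_apply]
    rw [hgG, hGx, hyy] at hle
    exact lt_of_lt_of_le (Order.lt_add_one_iff.2 le_rfl) hle

/-! ### Definable elements of the hull -/

theorem u_mem_HH {α : Type (u + 1)} [Ctx.{u} α] {f : Set ZFSet.{u} → Set ZFSet.{u} → α → ZFSet.{u}}
    (hf : U KZ.{u} f) (a : α) (ha : In (HH S0) a) : f Set.univ ∅ a ∈ HH S0 := by
  have hR : URel KZ.{u} (fun N A (p : α × ZFSet.{u}) => f N A p.1 = p.2) :=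
    URel.eq (hf.comp U.id.fst) U.id.snd
  obtain ⟨φ, hφ⟩ := hR
  have key : ∀ x, Sat Set.univ ∅ (φ.rn (rot (Ctx.n α))) (Fin.cons x (Ctx.vec a)) ↔
      f Set.univ ∅ a = x := fun x =>
    (sat_rot Set.univ ∅ φ a x).trans (hφ Set.univ ∅ isZF_univ (a, x) (fun _ => trivial)).symm
  have h1 := sk_spec (φ.rn (rot (Ctx.n α))) (Ctx.vec a) ⟨f Set.univ ∅ a, (key _).2 rfl⟩
  rw [key] at h1
  rw [h1]
  exact sk_mem _ _ ha

theorem empty_mem_HH : (∅ : ZFSet.{u}) ∈ HH S0 :=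
  u_mem_HH (f := fun _ _ (_ : PUnit.{u + 2}) => (∅ : ZFSet.{u}))
    (by apply_rules (transparency := .reducible) (maxDepth := 400) using is_poly) ⟨⟩
    (fun i => i.elim0)

theorem insert_mem_HH {x y : ZFSet.{u}} (hx : x ∈ HH S0) (hy : y ∈ HH S0) :
    (Insert.insert x y : ZFSet.{u}) ∈ HH S0 :=
  u_mem_HH (f := fun _ _ (p : ZFSet.{u} × ZFSet.{u}) => (Insert.insert p.1 p.2 : ZFSet.{u}))
    (by apply_rules (transparency := .reducible) (maxDepth := 400) using is_poly) (x, y)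
    (by simp [hx, hy])

theorem finset_mem_HH (s : Finset ZFSet.{u}) : (∀ y ∈ s, y ∈ HH S0) →
    ∃ z ∈ HH S0, ∀ w, w ∈ z ↔ w ∈ s := by
  classical
  induction s using Finset.induction_on with
  | empty => exact fun _ => ⟨∅, empty_mem_HH, fun w => by simp⟩
  | insert a s ha ih =>
    intro h
    obtain ⟨z, hz, hz'⟩ := ih (fun y hy => h y (Finset.mem_insert_of_mem hy))
    refine ⟨Insert.insert a z, insert_mem_HH (h a (Finset.mem_insert_self a s)) hz, fun w => ?_⟩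
    rw [ZFSet.mem_insert_iff, hz', Finset.mem_insert]

theorem VO_HH (hVO : ST_VO.{u}) (x : ZFSet.{u}) : x ∈ VO.{u} → x ∈ HH S0 ∧ col S0 x = x := by
  induction x using ZFSet.inductionOn with
  | _ x ih =>
    intro hx
    have htr : VO.{u}.IsTransitive := ZFSet.isTransitive_vonNeumann _
    have hel : ∀ y ∈ x, y ∈ HH S0 ∧ col S0 y = y := fun y hy => ih y hy (htr.mem_trans hy hx)
    obtain ⟨_, _, _, hfin, _⟩ := hVO
    have hf := hfin x hx
    obtain ⟨z, hz, hz'⟩ := finset_mem_HH (S0 := S0) hf.toFinset (fun y hy =>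
      (hel y (by simpa using hy)).1)
    have hxz : x = z := by
      apply ZFSet.ext
      intro w
      rw [hz']
      simp
    refine ⟨by rw [hxz]; exact hz, ?_⟩
    apply ZFSet.ext
    intro w
    rw [mem_col]
    constructor
    · rintro ⟨y, hy, _, rfl⟩
      rw [(hel y hy).2]
      exact hy
    · intro hw
      exact ⟨w, hw, (hel w hw).1, (hel w hw).2.symm⟩

/-- BM. -/
theorem st_BM (hVO : ST_VO.{1}) : ST_BM := by
  set S0 : Set ZFSet.{1} := {MuR, oz Ordinal.univ.{0, 1}} with hS0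
  have hS0c : S0.Countable := (Set.countable_singleton _).insert _
  have hsub : ∀ x ∈ S0, x ∈ HH S0 := fun x hx => Set.mem_iUnion.2 ⟨0, hx⟩
  have hMu : MuR ∈ HH S0 := hsub _ (Or.inl rfl)
  have hK : oz Ordinal.univ.{0, 1} ∈ HH S0 := hsub _ (Or.inr rfl)
  have hInac : InacS (MM S0) (col S0 (oz Ordinal.univ.{0, 1})) :=
    (urel_MM urel_InacS hK).2 inacS_univ
  have hord : oz (col S0 (oz Ordinal.univ.{0, 1})).rank = col S0 (oz Ordinal.univ.{0, 1}) :=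
    hInac.1.toZFSet_rank_eq
  refine ⟨MM S0, (col S0 (oz Ordinal.univ.{0, 1})).rank, ⟨?_, isZF_MM S0, ?_⟩, ?_, ?_⟩
  · exact (HH_countable hS0c).image _
  · exact WO_of_WOS ((urel_MM_unit urel_WOS).2 WOS_univ)
  · refine inac_of_inacS ?_ (by rw [hord]; exact hInac)
    rw [hord]
    exact ⟨_, hK, rfl⟩
  · refine ⟨MuR, hMu, ?_⟩
    apply ZFSet.ext
    intro w
    rw [mem_col]
    have hVOm : ∀ y ∈ MuR.{1}, y ∈ VO.{1} := fun y hy => (ZFSet.mem_sep.1 hy).1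
    constructor
    · rintro ⟨y, hy, _, rfl⟩
      rw [(VO_HH hVO y (hVOm y hy)).2]
      exact hy
    · intro hw
      exact ⟨w, hw, (VO_HH hVO w (hVOm w hw)).1, (VO_HH hVO w (hVOm w hw)).2.symm⟩

end Pool.Agent.Helper41.GP
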